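import Pool.Agent.U479.MC.Final

set_option autoImplicit false

/-!
# The canonical degree, and the general statement
-/

namespace Pool.Agent.U479.MC

open MvPolynomial Pool.Agent.W609 Pool.Agent.W609.CR Pool.Agent.TH167 Pool.Agent.TH167.SH
  Pool.Agent.TH167.TT Pool.Agent.U479.DD

theorem can_pos {s e : ℕ} (hs : 4 ≤ s) {U : Fin s → ℕ} (hred : Reduced e U) (hchi : chi e U ≤ 0)
    (hU : RigIrr e U) : 3 * e < ∑ j, U j := by
  obtain ⟨r, rfl⟩ : ∃ r, s = r + 4 := ⟨s - 4, by omega⟩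
  obtain ⟨K, i1, i2, P, hP⟩ := SH.exists_generic (r + 4)
  obtain ⟨h1, h2⟩ := hU K P hP
  obtain ⟨f, hf, hf0⟩ := exists_mem (by rw [h1]; exact one_pos)
  have hfm := (mem_VS _ _ _ _).1 hf
  by_contra hcon
  have h3 := red_ip hred (fun j => van_le hf0 hfm.1 (hfm.2 j)) (by omega)
  have h4 := two_chi e U
  rw [kk_cast] at h4
  omega

/-- A number of multiplicities. -/
theorem card_first {n t : ℕ} {U : Fin (n + t) → ℕ} {m : Fin n → ℕ}
    (h0 : ∀ i : Fin n, U (Fin.castAdd t i) ≤ m i) :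
    (Finset.univ.filter fun i : Fin n => 3 ≤ big U (Fin.castAdd t i)).card ≤
      (Finset.univ.filter fun i : Fin n => 3 ≤ m i).card := by
  refine Finset.card_le_card fun i hi => ?_
  rw [Finset.mem_filter] at hi ⊢
  refine ⟨hi.1, hi.2.trans ((big_le U _).trans (h0 i))⟩

/-- **The equivalence with bounds.** -/
theorem equiv (A : (n : ℕ) → ℕ → (Fin n → ℕ) → Prop)
    (hA : ∀ (n d e : ℕ) (m v : Fin n → ℕ), e ≤ d → (∀ i, v i ≤ m i) → A n d m → A n e v) :
    (∀ n, 4 ≤ n → ∀ (d : ℕ) (m : Fin n → ℕ), A n d m →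
      ∃ F : MvPolynomial (Fin n × Fin 2) ℂ, F ≠ 0 ∧ ∀ P : Fin n → Fin 2 → ℂ,
        MvPolynomial.eval (fun ij : Fin n × Fin 2 => P ij.1 ij.2) F ≠ 0 →
          (SHDefs.Special P d m ↔ SHDefs.MinusOneSpecial P d m)) ↔
    ∀ n, 4 ≤ n → ∀ (d : ℕ) (m : Fin n → ℕ), A n d m → Reduced d m →
      (∀ i, m i = 0 ∨ 3 ≤ m i) →
        ∃ F : MvPolynomial (Fin n × Fin 2) ℂ, F ≠ 0 ∧ ∀ P : Fin n → Fin 2 → ℂ,
          MvPolynomial.eval (fun ij : Fin n × Fin 2 => P ij.1 ij.2) F ≠ 0 →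
            ¬ SHDefs.Special P d m := by
  constructor
  · intro h n hn d m hAm hred h3
    obtain ⟨F, hF, h1⟩ := h n hn d m hAm
    refine ⟨F, hF, fun P hP hs => ?_⟩
    obtain ⟨r, rfl⟩ : ∃ r, n = r + 4 := ⟨n - 4, by omega⟩
    exact red_not_mspecial hred ((mspecial_conv P d m).1 ((h1 P hP).1 hs))
  · intro h n hn d m hAm
    rcases main hn d m with h1 | ⟨e, t, U, a1, a2, a3, a4, a5, a6⟩
    · exact h1
    · exfalso
      obtain ⟨b1, b2, b3, b4⟩ := first hn a3 a4 a5 a6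
      obtain ⟨F, hF, h1⟩ := h n hn e (fun i : Fin n => big U (Fin.castAdd t i))
        (hA n d e m _ a1 (fun i => (big_le U _).trans (a2 i)) hAm) b1 (fun i => by
          unfold big
          split_ifs with hi
          · right
            omega
          · left
            rfl)
      obtain ⟨F', hF', h2⟩ := genSpecial_iff.1 b2
      obtain ⟨x, hx⟩ : ∃ x : Fin n × Fin 2 → ℂ, MvPolynomial.eval x (F * F') ≠ 0 := by
        by_contra hcon
        push Not at hcon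
        exact mul_ne_zero hF hF' (MvPolynomial.funext fun x => by rw [hcon x, map_zero])
      obtain ⟨P, hPx⟩ : ∃ P : Fin n → Fin 2 → ℂ,
          (fun ij : Fin n × Fin 2 => P ij.1 ij.2) = x := ⟨fun i j => x (i, j), rfl⟩
      rw [← hPx, map_mul] at hx
      exact h1 P (left_ne_zero_of_mul hx) (h2 P (right_ne_zero_of_mul hx))

end Pool.Agent.U479.MC
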