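import Pool.Agent.TH167.TT.Core2
import Pool.Agent.TH167.TT.Strict

set_option autoImplicit false

/-!
# Rigid reduced classes of nonpositive Euler characteristic
-/

namespace Pool.Agent.U479.MC

open MvPolynomial Pool.Agent.W609 Pool.Agent.W609.CR Pool.Agent.TH167.SH Pool.Agent.TH167.TT

/-- An irreducible curve of nonnegative self-intersection is nef. -/
theorem nef_irr {K : Type} [Field K] [CharZero K] {r d : ℕ} {w : Fin (r + 4) → ℕ}
    {P : Fin (r + 4) → Fin 2 → K}
    (hP : AlgebraicIndependent ℚ (fun ij : Fin (r + 4) × Fin 2 => P ij.1 ij.2))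
    {f : MvPolynomial (Fin 3) K} (hf0 : f ≠ 0) (hfd : f.IsHomogeneous d)
    (hford : ∀ j, Ord (aff (P j)) (w j) f)
    {G : MvPolynomial (Fin 3) K} {e : ℕ} {u : Fin (r + 4) → ℕ} (hG : Irreducible G)
    (hGe : G.IsHomogeneous e) (hu : ∀ j, Ord (aff (P j)) (u j) G) (hself : 0 ≤ ip e u e u) :
    0 ≤ ip d w e u := by
  classical
  have hinj := inj_of_alg hP
  have hG0 := hG.ne_zero
  -- `f = G ^ k * g`
  obtain ⟨k, g, hgnd, hfg⟩ := WfDvdMonoid.max_power_factor hf0 hG
  have hg0 : g ≠ 0 := fun h => hf0 (by rw [hfg, h, mul_zero])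
  have hgh := Pool.Agent.Chud.homog_of_dvd hfd hf0 (Dvd.intro_left _ hfg.symm)
  obtain ⟨b, hb⟩ : ∃ b, b = g.totalDegree := ⟨_, rfl⟩
  rw [← hb] at hgh
  choose v hv using fun j => exists_ord (p := P j) hg0 hgh
  have hdeg : d = k * e + b := by
    have h1 := (hGe.pow k).mul hgh
    rw [← hfg] at h1
    have h2 := h1.inj_right hfd hf0
    rw [← h2]
    ring
  have hord : ∀ j, w j = k * u j + v j := by
    intro j
    have h1 : ∀ n : ℕ, Ord (aff (P j)) (n * u j) (G ^ n) := by
      intro n
      induction n with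
      | zero =>
        rw [Nat.zero_mul, pow_zero]
        refine ⟨van_zero _ _, fun h => ?_⟩
        have := van_le (one_ne_zero) (isHomogeneous_one (Fin 3) K) h
        omega
      | succ n ih =>
        rw [pow_succ, Nat.succ_mul]
        exact ord_mul ih (hu j)
    have h2 := ord_mul (h1 k) (hv j)
    rw [← hfg] at h2
    exact ord_unique (hford j) h2
  have hbez := bez hinj hG hGe (fun j => (hu j).1) hg0 hgh (fun j => (hv j).1) hgnd
  have hgG : 0 ≤ ip b v e u := by
    unfold ip
    have h3 : (∑ j, (v j : ℤ) * u j) = ((∑ j, u j * v j : ℕ) : ℤ) := by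
      push_cast
      exact Finset.sum_congr rfl fun j _ => mul_comm _ _
    rw [h3, mul_comm (b : ℤ)]
    have : ((∑ j, u j * v j : ℕ) : ℤ) ≤ ((e * b : ℕ) : ℤ) := by exact_mod_cast hbez
    push_cast at this ⊢
    linarith
  have hkG : ip d w e u = k * ip e u e u + ip b v e u := by
    unfold ip
    rw [hdeg]
    have h1 : ∀ j, (w j : ℤ) * u j = k * ((u j : ℤ) * u j) + (v j : ℤ) * u j := by
      intro j
      rw [hord j]
      push_cast
      ring
    rw [Finset.sum_congr rfl fun j _ => h1 j, Finset.sum_add_distrib, ← Finset.mul_sum]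
    push_cast
    ring
  rw [hkG]
  positivity

/-- A smaller class of the same kind. -/
def Smaller {r : ℕ} (K : Type) [Field K] [CharZero K] (d : ℕ) (w : Fin (r + 4) → ℕ) : Prop :=
  ∃ (P1 : Fin (r + 4) → Fin 2 → K) (e : ℕ) (u : Fin (r + 4) → ℕ),
    AlgebraicIndependent ℚ (fun ij : Fin (r + 4) × Fin 2 => P1 ij.1 ij.2) ∧ e < d ∧
      (∀ j, u j ≤ w j) ∧ Reduced e u ∧ Module.finrank K ↥(VS (fun j => aff (P1 j)) u e) = 1 ∧
      chi e u ≤ 0

/-- The member is irreducible, or there is a smaller class. -/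
theorem step {r : ℕ} {K : Type} [Field K] [CharZero K] {P : Fin (r + 4) → Fin 2 → K}
    (hP : AlgebraicIndependent ℚ (fun ij : Fin (r + 4) × Fin 2 => P ij.1 ij.2)) {d : ℕ}
    {w : Fin (r + 4) → ℕ} (hred : Reduced d w)
    (h1 : Module.finrank K ↥(VS (fun j => aff (P j)) w d) = 1) (hchi : chi d w ≤ 0)
    {f : MvPolynomial (Fin 3) K} (hf : f ∈ VS (fun j => aff (P j)) w d) (hf0 : f ≠ 0) :
    Irreducible f ∨ Smaller K d w := by
  classical
  by_cases hirr : Irreducible f
  · exact Or.inl hirr
  right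
  have hfm := (mem_VS _ _ _ _).1 hf
  have hfu : ¬ IsUnit f := by
    intro h2
    have h3 : f.totalDegree = 0 := (MvPolynomial.isUnit_iff_totalDegree_of_isReduced.1 h2).2
    have h4 : d = 0 := by rw [← hfm.1.totalDegree hf0, h3]
    have h5 : ∀ j, w j = 0 := fun j => by
      have := van_le hf0 hfm.1 (hfm.2 j)
      omega
    have h6 : chi d w = 1 := by
      rw [chi_cast, h4]
      simp [h5]
    omega
  obtain ⟨G, hG, h, hh⟩ := WfDvdMonoid.exists_irreducible_factor hfu hf0
  have hhu : ¬ IsUnit h := by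
    intro h2
    apply hirr
    rw [hh]
    exact (irreducible_mul_isUnit h2).2 hG
  have hh0 : h ≠ 0 := fun h0 => hf0 (by rw [hh, h0, mul_zero])
  have hGe := Pool.Agent.Chud.homog_of_dvd hfm.1 hf0 (Dvd.intro _ hh.symm)
  obtain ⟨e, he⟩ : ∃ e, e = G.totalDegree := ⟨_, rfl⟩
  rw [← he] at hGe
  have hG0 := hG.ne_zero
  have he0 := deg_pos hG hGe
  choose u hu using fun j => exists_ord (p := P j) hG0 hGe
  obtain ⟨hed, hhm⟩ := mem_of_factor hf hf0 hGe hu hh
  have hhm' := (mem_VS _ _ _ _).1 hhm
  have hed2 : e < d := by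
    by_contra hcon
    apply hhu
    rw [MvPolynomial.isUnit_iff_totalDegree_of_isReduced]
    have h2 : h.totalDegree = 0 := by
      rw [hhm'.1.totalDegree hh0]
      omega
    refine ⟨?_, h2⟩
    have h3 := totalDegree_eq_zero_iff_eq_C.1 h2
    rw [h3] at hh0
    exact IsUnit.mk0 _ (fun h4 => hh0 (by rw [h4, C_0]))
  have hwu : ∀ j, u j ≤ w j := by
    intro j
    obtain ⟨v, hv⟩ := exists_ord (p := P j) hh0 hhm'.1
    have h2 := ord_mul (hu j) hv
    rw [← hh] at h2
    have h3 := ord_unique (exact_ord hP h1 hf hf0 j) h2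
    omega
  have hhord : ∀ j, Ord (aff (P j)) (w j - u j) h := by
    intro j
    obtain ⟨v, hv⟩ := exists_ord (p := P j) hh0 hhm'.1
    have h2 := ord_mul (hu j) hv
    rw [← hh] at h2
    have h3 := ord_unique (exact_ord hP h1 hf hf0 j) h2
    have h4 : v = w j - u j := by omega
    rw [← h4]
    exact hv
  have hGm : G ∈ VS (fun j => aff (P j)) u e := by
    rw [mem_VS]
    exact ⟨hGe, fun j => (hu j).1⟩
  have hD : (fun j => (w j - u j) + u j) = w := by
    funext j
    have := hwu j
    omega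
  have hD' : (fun j => u j + (w j - u j)) = w := by
    funext j
    have := hwu j
    omega
  have hd : d - e + e = d := by omega
  have hd' : e + (d - e) = d := by omega
  -- the curve and the residual class are rigid
  have r1 : Module.finrank K ↥(VS (fun j => aff (P j)) u e) = 1 := by
    have h2 := mult_le (w := u) (d := e) hhm hh0
    rw [hD', hd', h1] at h2
    have h3 := pos_of_mem hGm hG0
    omega
  have r2 : Module.finrank K ↥(VS (fun j => aff (P j)) (fun j => w j - u j) (d - e)) = 1 := by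
    have h2 := mult_le (w := fun j => w j - u j) (d := d - e) hGm hG0
    rw [hD, hd, h1] at h2
    have h3 := pos_of_mem hhm hh0
    omega
  -- the curve
  have key : Smaller K d w ∨ chi e u = 1 ∧ ((ip e u e u = -1 ∧ kk e u = 1) ∨ 0 ≤ ip e u e u) := by
    rcases irr_red e P hP u G hG hGe hu with ⟨c1, c2, c3⟩ | ⟨P1, e1, w1, G1, a1, a2, a3, a4, a5,
      a6, a7, a8, a9⟩
    · right
      rw [r1] at c1
      exact ⟨c1.symm, Or.inl ⟨c2, c3⟩⟩
    · obtain ⟨q1, q2, q3⟩ := quad_inv a5
      simp only at q1 q2 q3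
      rw [r1] at a9
      by_cases hc : chi e1 w1 ≤ 0
      · left
        exact ⟨P1, e1, w1, a1, by omega, fun j => (a7 j).trans (hwu j), a6, a9, hc⟩
      · right
        have h2 := chi_le_dim P1 e1 w1
        rw [a9] at h2
        have h3 : chi e1 w1 = 1 := by omega
        refine ⟨by omega, Or.inr ?_⟩
        by_contra hneg
        have h4 := two_chi e1 w1
        rw [h3] at h4
        have h5 : 0 ≤ kk e1 w1 := by omega
        rw [kk_cast] at h5
        have h6 := red_ip a6 (fun j => van_le a2.ne_zero a3 (a4 j).1) (by omega)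
        omega
  rcases key with key | ⟨c1, hcase⟩
  · exact key
  -- numerical consequences
  have t1 := two_chi e u
  rw [c1] at t1
  have s1 : ip d w d w = ip (d - e) (fun j => w j - u j) (d - e) (fun j => w j - u j) +
      2 * ip (d - e) (fun j => w j - u j) e u + ip e u e u := by
    have a1 := ip_sq (d - e) e (fun j => w j - u j) u
    rw [hD, hd] at a1
    exact a1
  have s2 : ip d w e u = ip (d - e) (fun j => w j - u j) e u + ip e u e u := by
    have a1 := ip_add (d - e) e e (fun j => w j - u j) u u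
    rw [hD, hd] at a1
    exact a1
  have s3 : kk d w = kk (d - e) (fun j => w j - u j) + kk e u := by
    have a1 := kk_add (d - e) e (fun j => w j - u j) u
    rw [hD, hd] at a1
    exact a1
  have s4 := two_chi d w
  have s5 := two_chi (d - e) (fun j => w j - u j)
  have s8 : 0 ≤ ip (d - e) (fun j => w j - u j) e u := by
    rcases hcase with ⟨b1, b2⟩ | hge
    · have h2 : 0 ≤ ip d w e u := by
        have h3 : 0 ≤ kk e u := by omega
        rw [kk_cast] at h3
        exact red_ip hred (fun j => van_le hG0 hGe (hu j).1) (by omega)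
      omega
    · exact nef_irr hP hh0 hhm'.1 hhord hG hGe hu hge
  have s7 : chi (d - e) (fun j => w j - u j) ≤ 0 := by omega
  -- the decomposition of the residual system
  obtain ⟨d', w', k, C, ee, uu, N, hDec, hdim, P1, d1, w1, hP1, hchain, hle, hd1, hred1,
    hdim1⟩ := main2 (d - e) P hP (fun j => w j - u j) (by rw [r2]; exact one_pos)
  rw [r2] at hdim
  rw [hdim] at hdim1
  by_cases hc1' : chi d1 w1 ≤ 0
  · exact ⟨P1, d1, w1, hP1, by omega, fun j => (hle j).trans (Nat.sub_le _ _), hred1, hdim1,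
      hc1'⟩
  exfalso
  have hc0 := chi_le_dim P1 d1 w1
  rw [hdim1] at hc0
  have hc1 : chi d1 w1 = 1 := by omega
  obtain ⟨q1, q2, q3⟩ := quad_inv hchain
  simp only at q1 q2 q3
  rw [hc1] at q1
  have hDcp : Dcp P (d - e) (fun j => w j - u j) d' w' C ee uu N :=
    ⟨hDec.exc, hDec.pos, hDec.orth, hDec.deg, hDec.mul, hDec.zero⟩
  obtain ⟨a, ha⟩ : ∃ a, 2 ≤ N a := by
    by_contra hcon
    push Not at hcon
    have h3 := hDcp.chi_one hcon
    omega
  have hE := hDec.exc a
  have n1 := hDcp.neg a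
  have n2 := red_nef hred hE
  have n3 : ip d w (ee a) (uu a) = ip (d - e) (fun j => w j - u j) (ee a) (uu a) +
      ip e u (ee a) (uu a) := by
    have a1 := ip_add (d - e) e (ee a) (fun j => w j - u j) u (uu a)
    rw [hD, hd] at a1
    exact a1
  have n4 : 2 ≤ ip e u (ee a) (uu a) := by omega
  -- the curve plus the (-1)-curve moves
  have hdvd := exc_pow_dvd (inj_of_alg hP) hE (N a) (d - e) (fun j => w j - u j)
    (by omega) h hhm
  obtain ⟨h2, hh2⟩ : ∃ h2, h = C a * h2 := by
    obtain ⟨y, hy⟩ := hdvd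
    refine ⟨C a ^ (N a - 1) * y, ?_⟩
    rw [hy, ← mul_assoc, ← pow_succ']
    congr 2
    omega
  have hh20 : h2 ≠ 0 := fun h0 => hh0 (by rw [hh2, h0, mul_zero])
  obtain ⟨hea, hh2m⟩ := mem_of_factor hhm hh0 hE.hom hE.ord hh2
  have huu : ∀ j, uu a j ≤ w j - u j := by
    intro j
    have h3 := hDec.mul j
    beta_reduce at h3
    rw [h3]
    have h4 : N a * uu a j ≤ ∑ b, N b * uu b j :=
      Finset.single_le_sum (f := fun b => N b * uu b j) (fun b _ => Nat.zero_le _)
        (Finset.mem_univ a)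
    nlinarith
  have m1 := mult_le (w := fun j => u j + uu a j) (d := e + ee a) hh2m hh20
  have e1 : (fun j => u j + uu a j + (w j - u j - uu a j)) = w := by
    funext j
    have := huu j
    have := hwu j
    omega
  have e2 : e + ee a + (d - e - ee a) = d := by omega
  rw [e1, e2, h1] at m1
  have m2 := chi_le_dim P (e + ee a) (fun j => u j + uu a j)
  have m3 := two_chi (e + ee a) (fun j => u j + uu a j)
  rw [ip_add, ip_comm e (e + ee a), ip_add, ip_comm (ee a) (e + ee a), ip_add, kk_add,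
    self_iff.1 hE.self, can_iff.1 hE.can, ip_comm (ee a) e] at m3
  omega

end Pool.Agent.U479.MC
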