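import Pool.Agent.U479.MC.Pad
import Pool.Agent.TH442.NF.HH
import Pool.Agent.TH167.SH.Fam

set_option autoImplicit false

/-!
# The conjecture of Harbourne and Hirschowitz and multiplicities at most two
-/

namespace Pool.Agent.U479.MC

open MvPolynomial Pool.Agent.W609 Pool.Agent.W609.CR Pool.Agent.TH167 Pool.Agent.TH167.SH
  Pool.Agent.TH167.TT Pool.Agent.U479.DD

/-- A special system is `(-1)`-special for general points, or there is a special reduced class
below. -/
theorem hh_or {r : ℕ} (d : ℕ) (w : Fin (r + 4) → ℕ) :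
    (∃ F : MvPolynomial (Fin (r + 4) × Fin 2) ℚ, F ≠ 0 ∧ ∀ (K : Type) [Field K] [CharZero K]
      (P : Fin (r + 4) → Fin 2 → K), evP P F ≠ 0 → SH.Special P d w → MSpecial P d w) ∨
    ∃ (d1 : ℕ) (w1 : Fin (r + 4) → ℕ), d1 ≤ d ∧ (∀ j, w1 j ≤ w j) ∧ Reduced d1 w1 ∧
      GenSpecial d1 w1 := by
  classical
  obtain ⟨g, Fg, hFg, hg⟩ := dim_gen w d
  obtain ⟨K0, i1, i2, P0, hP0⟩ := SH.exists_generic (r + 4)
  rcases Nat.eq_zero_or_pos g with hg0 | hg0
  · refine Or.inl ⟨Fg, hFg, fun K _ _ P hP hs => ?_⟩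
    exfalso
    rw [special_iff, hg K P hP, hg0] at hs
    omega
  have hg1 := hg K0 P0 (evP_ne hP0 hFg)
  obtain ⟨d', w', k, C0, e, u, N, hD, hdim, P1, d1, w1, hP1, hchain, hle, hd1, hred, hdim1⟩ :=
    main2 d P0 hP0 w (by rw [hg1]; exact hg0)
  obtain ⟨c1, c2, c3⟩ := quad_inv hchain
  simp only at c1 c2 c3
  by_cases hns : chi d1 w1 = g
  · left
    obtain ⟨g', Fg', hFg', hg'⟩ := dim_gen w' d'
    have hge : g' = g := by
      rw [← hg' K0 P0 (evP_ne hP0 hFg'), hdim, hg1]
    have hspr := fun a => exc_spread (e a) (u a) ⟨K0, i1, i2, P0, C0 a, hP0, hD.exc a⟩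
    choose Fa hFa hFa' using hspr
    refine ⟨Fg * Fg' * ∏ a, Fa a, mul_ne_zero (mul_ne_zero hFg hFg')
      (Finset.prod_ne_zero_iff.2 fun a _ => hFa a), fun K _ _ P hP hs => ?_⟩
    rw [map_mul, map_mul, map_prod] at hP
    have q0 := hg K P (left_ne_zero_of_mul (left_ne_zero_of_mul hP))
    have q1 := hg' K P (right_ne_zero_of_mul (left_ne_zero_of_mul hP))
    have q3 := Finset.prod_ne_zero_iff.1 (right_ne_zero_of_mul hP)
    choose C hC using fun a => hFa' a K P (q3 a (Finset.mem_univ a))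
    have hDcp : Dcp P d w d' w' C e u N := ⟨hC, hD.pos, hD.orth, hD.deg, hD.mul, hD.zero⟩
    rw [special_iff, q0] at hs
    refine ⟨d', w', k, C, e, u, N, hDcp, by omega, ?_⟩
    by_contra hcon
    push Not at hcon
    have h2 := hDcp.chi_one hcon
    omega
  · right
    refine ⟨d1, w1, hd1, hle, hred, genSpecial_of hP1 ?_⟩
    have h3 := chi_le_dim P1 d1 w1
    rw [special_iff]
    rw [hdim1, hdim, hg1] at h3 ⊢
    exact ⟨hg0, by omega⟩

/-- The class on the first points without the multiplicities at most two. -/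
theorem first {n t e : ℕ} (hn : 4 ≤ n) {U : Fin (n + t) → ℕ}
    (h1 : ∀ i : Fin t, U (Fin.natAdd n i) ≤ 1)
    (hred : Reduced e U) (hchi : chi e U ≤ 0) (hU : RigIrr e U) :
    Reduced e (fun i : Fin n => big U (Fin.castAdd t i)) ∧
      GenSpecial e (fun i : Fin n => big U (Fin.castAdd t i)) ∧ GenSpecial e (big U) ∧
      10 ≤ (Finset.univ.filter fun j => 2 < U j).card := by
  classical
  have hs : GenSpecial e (big U) := by
    intro K _ _ P hP
    obtain ⟨s, hs⟩ : ∃ s, s = n + t := ⟨_, rfl⟩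
    have key : ∀ (s : ℕ), 4 ≤ s → ∀ (U : Fin s → ℕ), chi e U ≤ 0 → RigIrr e U →
        ∀ (P : Fin s → Fin 2 → K),
          AlgebraicIndependent ℚ (fun ij : Fin s × Fin 2 => P ij.1 ij.2) →
          SH.Special P e (big U) := by
      intro s hs U hchi hU P hP
      obtain ⟨r, rfl⟩ : ∃ r, s = r + 4 := ⟨s - 4, by omega⟩
      exact big_special hchi hU hP
    exact key (n + t) (by omega) U hchi hU P hP
  refine ⟨?_, ?_, hs, ?_⟩
  · intro i j k hij hik hjk
    have h2 := hred (Fin.castAdd t i) (Fin.castAdd t j) (Fin.castAdd t k)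
      (fun h => hij (Fin.castAdd_injective n t h)) (fun h => hik (Fin.castAdd_injective n t h))
      (fun h => hjk (Fin.castAdd_injective n t h))
    have := big_le U (Fin.castAdd t i)
    have := big_le U (Fin.castAdd t j)
    have := big_le U (Fin.castAdd t k)
    beta_reduce
    omega
  · obtain ⟨K, i1, i2, P, hP⟩ := exists_gen
    have h2 := hs K (fun j : Fin (n + t) => P j) (gen_fin hP (n + t))
    refine genSpecial_of (P := fun j : Fin n => P j) (gen_fin hP n) ?_
    unfold SH.Special at h2 ⊢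
    have e1 : Module.finrank K ↥(VS (fun j : Fin (n + t) => aff (P j)) (big U) e) =
        Module.finrank K ↥(VS (fun j : Fin n => aff (P j))
          (fun i : Fin n => big U (Fin.castAdd t i)) e) := by
      have a1 := V_eq (P := P) (w := ext (big U)) (s := n + t) (fun j hj => ext_ge _ hj) e
      have a2 := V_eq (P := P) (w := ext (big U)) (s := n) (fun j hj => by
        by_cases hjt : j < n + t
        · have b1 := ext_val (big U) (Fin.natAdd n (⟨j - n, by omega⟩ : Fin t))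
          have b2 : ((Fin.natAdd n (⟨j - n, by omega⟩ : Fin t) : Fin (n + t)) : ℕ) = j := by
            show n + (j - n) = j
            omega
          rw [b2] at b1
          rw [b1]
          unfold big
          rw [if_neg]
          have := h1 (⟨j - n, by omega⟩ : Fin t)
          omega
        · exact ext_ge _ (by omega)) e
      have a3 : (fun j : Fin (n + t) => ext (big U) (j : ℕ)) = big U :=
        funext fun j => ext_val _ j
      have a4 : (fun j : Fin n => ext (big U) (j : ℕ)) = fun i : Fin n =>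
          big U (Fin.castAdd t i) := funext fun j => ext_val (big U) (Fin.castAdd t j)
      rw [a3] at a1
      rw [a4] at a2
      rw [← a1, ← a2]
    have e2 : chi e (big U) = chi e (fun i : Fin n => big U (Fin.castAdd t i)) := by
      rw [chi_cast, chi_cast, Fin.sum_univ_add]
      have e3 : ∑ i : Fin t, (big U (Fin.natAdd n i) + 1).choose 2 = 0 := by
        refine Finset.sum_eq_zero fun i _ => ?_
        unfold big
        rw [if_neg (by have := h1 i; omega)]
        rfl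
      rw [e3]
      simp
    rw [e1, e2] at h2
    exact h2
  · obtain ⟨K, i1, i2, P, hP⟩ := exists_gen
    have h2 := hs K (fun j : Fin (n + t) => P j) (gen_fin hP (n + t))
    have key : ∀ (s : ℕ), 4 ≤ s → ∀ (U : Fin s → ℕ), Reduced e U →
        ∀ (P : Fin s → Fin 2 → K),
          AlgebraicIndependent ℚ (fun ij : Fin s × Fin 2 => P ij.1 ij.2) →
          SH.Special P e (big U) → 10 ≤ (Finset.univ.filter fun j => 2 < U j).card := by
      intro s hs U hred P hP h
      obtain ⟨r, rfl⟩ : ∃ r, s = r + 4 := ⟨s - 4, by omega⟩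
      have h3 := ten (big_red hred) hP h
      refine h3.trans (Finset.card_le_card fun j hj => ?_)
      rw [Finset.mem_filter] at hj ⊢
      exact ⟨hj.1, lt_of_lt_of_le hj.2 (big_le U j)⟩
    exact key (n + t) (by omega) U hred _ (gen_fin hP (n + t)) h2

/-- Over the complex numbers, for general points. -/
theorem genSpecial_iff {n d : ℕ} {w : Fin n → ℕ} : GenSpecial d w ↔
    ∃ F : MvPolynomial (Fin n × Fin 2) ℂ, F ≠ 0 ∧ ∀ P : Fin n → Fin 2 → ℂ,
      MvPolynomial.eval (fun ij : Fin n × Fin 2 => P ij.1 ij.2) F ≠ 0 →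
        SHDefs.Special P d w := by
  obtain ⟨g, Fg, hFg, hg⟩ := dim_gen w d
  obtain ⟨K0, i1, i2, P0, hP0⟩ := SH.exists_generic n
  constructor
  · intro h
    have h1 := h K0 P0 hP0
    refine ⟨Fg.map (algebraMap ℚ ℂ), map_ne hFg, fun P hP => ?_⟩
    rw [evP_eval] at hP
    rw [special_conv]
    unfold SH.Special at h1 ⊢
    rw [hg ℂ P hP, ← hg K0 P0 (evP_ne hP0 hFg)]
    exact h1
  · rintro ⟨F, hF, h⟩
    have h2 : F * Fg.map (algebraMap ℚ ℂ) ≠ 0 := mul_ne_zero hF (map_ne hFg)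
    obtain ⟨x, hx⟩ : ∃ x : Fin n × Fin 2 → ℂ,
        MvPolynomial.eval x (F * Fg.map (algebraMap ℚ ℂ)) ≠ 0 := by
      by_contra hcon
      push Not at hcon
      exact h2 (MvPolynomial.funext fun x => by rw [hcon x, map_zero])
    obtain ⟨P, hPx⟩ : ∃ P : Fin n → Fin 2 → ℂ, (fun ij : Fin n × Fin 2 => P ij.1 ij.2) = x :=
      ⟨fun i j => x (i, j), rfl⟩
    rw [← hPx, map_mul] at hx
    have h3 := h P (left_ne_zero_of_mul hx)
    have h4 := right_ne_zero_of_mul hx
    rw [evP_eval] at h4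
    rw [special_conv] at h3
    refine genSpecial_of hP0 ?_
    unfold SH.Special at h3 ⊢
    rw [hg K0 P0 (evP_ne hP0 hFg), ← hg ℂ P h4]
    exact h3

/-- If the class is not special for generic points, then it is not special for general points. -/
theorem not_genSpecial {n d : ℕ} {w : Fin n → ℕ} (h : ¬ GenSpecial d w) :
    ∃ F : MvPolynomial (Fin n × Fin 2) ℂ, F ≠ 0 ∧ ∀ P : Fin n → Fin 2 → ℂ,
      MvPolynomial.eval (fun ij : Fin n × Fin 2 => P ij.1 ij.2) F ≠ 0 →
        ¬ SHDefs.Special P d w := by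
  obtain ⟨g, Fg, hFg, hg⟩ := dim_gen w d
  obtain ⟨K0, i1, i2, P0, hP0⟩ := SH.exists_generic n
  refine ⟨Fg.map (algebraMap ℚ ℂ), map_ne hFg, fun P hP hs => h ?_⟩
  rw [evP_eval] at hP
  rw [special_conv] at hs
  refine genSpecial_of hP0 ?_
  unfold SH.Special at hs ⊢
  rw [hg K0 P0 (evP_ne hP0 hFg), ← hg ℂ P hP]
  exact hs

/-- A reduced class is not `(-1)`-special. -/
theorem red_not_mspecial {r d : ℕ} {w : Fin (r + 4) → ℕ} (hred : Reduced d w) {K : Type} [Field K]
    {P : Fin (r + 4) → Fin 2 → K} (h : MSpecial P d w) : False := by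
  obtain ⟨d', w', k, C, e, u, N, hD, h1, a, ha⟩ := h
  have h2 := hD.neg a
  have h3 := red_nef hred (hD.exc a)
  omega

/-- **The dichotomy.** -/
theorem main {n : ℕ} (hn : 4 ≤ n) (d : ℕ) (m : Fin n → ℕ) :
    (∃ F : MvPolynomial (Fin n × Fin 2) ℂ, F ≠ 0 ∧ ∀ P : Fin n → Fin 2 → ℂ,
      MvPolynomial.eval (fun ij : Fin n × Fin 2 => P ij.1 ij.2) F ≠ 0 →
        (SHDefs.Special P d m ↔ SHDefs.MinusOneSpecial P d m)) ∨
    ∃ (e t : ℕ) (U : Fin (n + t) → ℕ), e ≤ d ∧ (∀ i : Fin n, U (Fin.castAdd t i) ≤ m i) ∧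
      (∀ i : Fin t, U (Fin.natAdd n i) ≤ 1) ∧ Reduced e U ∧ chi e U ≤ 0 ∧ RigIrr e U := by
  obtain ⟨r, rfl⟩ : ∃ r, n = r + 4 := ⟨n - 4, by omega⟩
  rcases hh_or d m with ⟨F, hF, h⟩ | ⟨d1, w1, h1, h2, h3, h4⟩
  · left
    refine ⟨F.map (algebraMap ℚ ℂ), map_ne hF, fun P hP => ⟨fun hs => ?_,
      Pool.Agent.TH442.NF.spec_of_mspec⟩⟩
    rw [evP_eval] at hP
    rw [special_conv] at hs
    rw [mspecial_conv]
    exact h ℂ P hP hs
  · right
    obtain ⟨e, t, U, a1, a2, a3, a4, a5, a6⟩ := pad hn h3 h4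
    exact ⟨e, t, U, a1.trans h1, fun i => (a2 i).trans (h2 i), a3, a4, a5, a6⟩

/-- The rigid irreducible curve over the complex numbers. -/
theorem curve_of {s e : ℕ} {U : Fin s → ℕ} (hU : RigIrr e U) {P : Fin s → Fin 2 → ℂ}
    (hP : AlgebraicIndependent ℚ (fun ij : Fin s × Fin 2 => P ij.1 ij.2)) :
    SHDefs.dimL P e U = 0 ∧ ∃ G, SHDefs.Curve P G e U := by
  obtain ⟨h1, h2⟩ := hU ℂ P hP
  constructor
  · rw [dimL_eq, h1]
    rfl
  · obtain ⟨f, hf, hf0⟩ := exists_mem (by rw [h1]; exact one_pos)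
    exact ⟨f, curve_iff.2 ⟨h2 f hf hf0, ((mem_VS _ _ _ _).1 hf).1, fun j => exact_ord hP h1 hf hf0 j⟩⟩

end Pool.Agent.U479.MC
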