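import Pool.Agent.U479.MC.Core
import Pool.Agent.TH167.TT.NonSp

set_option autoImplicit false

/-!
# Minimal rigid reduced classes of nonpositive Euler characteristic
-/

namespace Pool.Agent.U479.MC

open MvPolynomial Pool.Agent.W609 Pool.Agent.W609.CR Pool.Agent.TH167.SH Pool.Agent.TH167.TT

/-- The system of a class at generic points consists of one irreducible curve. -/
def RigIrr {s : ℕ} (e : ℕ) (u : Fin s → ℕ) : Prop :=
  ∀ (K : Type) [Field K] [CharZero K] (P : Fin s → Fin 2 → K),
    AlgebraicIndependent ℚ (fun ij : Fin s × Fin 2 => P ij.1 ij.2) →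
      Module.finrank K ↥(VS (fun j => aff (P j)) u e) = 1 ∧
        ∀ f ∈ VS (fun j => aff (P j)) u e, f ≠ 0 → Irreducible f

/-- **A minimal class.** -/
theorem minimal {r : ℕ} : ∀ (d : ℕ) (w : Fin (r + 4) → ℕ), Reduced d w →
    (∃ (K : Type) (_ : Field K) (_ : CharZero K) (P : Fin (r + 4) → Fin 2 → K),
      AlgebraicIndependent ℚ (fun ij : Fin (r + 4) × Fin 2 => P ij.1 ij.2) ∧
        Module.finrank K ↥(VS (fun j => aff (P j)) w d) = 1) → chi d w ≤ 0 →
    ∃ (e : ℕ) (u : Fin (r + 4) → ℕ), e ≤ d ∧ (∀ j, u j ≤ w j) ∧ Reduced e u ∧ chi e u ≤ 0 ∧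
      RigIrr e u := by
  classical
  intro d
  induction d using Nat.strong_induction_on with
  | _ d ih =>
    intro w hred hrig hchi
    obtain ⟨K0, i1, i2, P0, hP0, h0⟩ := hrig
    by_cases hall : RigIrr d w
    · exact ⟨d, w, le_rfl, fun _ => le_rfl, hred, hchi, hall⟩
    unfold RigIrr at hall
    push Not at hall
    obtain ⟨K, j1, j2, P, hP, h2⟩ := hall
    have h1 : Module.finrank K ↥(VS (fun j => aff (P j)) w d) = 1 := by
      rw [← h0]
      exact gen_eq hP hP0 w d
    obtain ⟨f, hf, hf0, hni⟩ := h2 h1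
    rcases step hP hred h1 hchi hf hf0 with h | ⟨P1, e, u, hP1, he, hu, hr, h3, h4⟩
    · exact absurd h hni
    · obtain ⟨e', u', a1, a2, a3, a4, a5⟩ := ih e he u hr ⟨K, j1, j2, P1, hP1, h3⟩ h4
      exact ⟨e', u', by omega, fun j => (a2 j).trans (hu j), a3, a4, a5⟩

/-- The multiplicities larger than two. -/
def big {s : ℕ} (w : Fin s → ℕ) : Fin s → ℕ := fun j => if 2 < w j then w j else 0

theorem big_le {s : ℕ} (w : Fin s → ℕ) (j : Fin s) : big w j ≤ w j := by
  unfold big
  split_ifs <;> omega

theorem big_red {s d : ℕ} {w : Fin s → ℕ} (h : Reduced d w) : Reduced d (big w) := by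
  intro i j k hij hik hjk
  have := h i j k hij hik hjk
  have := big_le w i
  have := big_le w j
  have := big_le w k
  omega

/-- The class without the multiplicities at most two is special. -/
theorem big_special {r e : ℕ} {u : Fin (r + 4) → ℕ} (hchi : chi e u ≤ 0) (h : RigIrr e u)
    {K : Type} [Field K] [CharZero K] {P : Fin (r + 4) → Fin 2 → K}
    (hP : AlgebraicIndependent ℚ (fun ij : Fin (r + 4) × Fin 2 => P ij.1 ij.2)) :
    Pool.Agent.TH167.SH.Special P e (big u) := by
  classical
  obtain ⟨h1, h2⟩ := h K P hP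
  obtain ⟨f, hf, hf0⟩ := exists_mem (by rw [h1]; exact one_pos)
  have h3 := tlem hP h1 hf hf0 (h2 f hf hf0).squarefree (Finset.univ.filter fun j => 2 < u j)
    (fun j hj => by
      rw [Finset.mem_filter] at hj
      push Not at hj
      exact hj (Finset.mem_univ _))
  have e1 : (fun j => if j ∈ (Finset.univ.filter fun j => 2 < u j) then u j else 0) = big u := by
    funext j
    simp [big]
  rw [e1] at h3
  rw [special_iff]
  have e2 : ∑ j, (u j + 1).choose 2 = ∑ j, (big u j + 1).choose 2 +
      ∑ j, (if j ∈ (Finset.univ.filter fun j => 2 < u j) then 0 else (u j + 1).choose 2) := by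
    rw [← Finset.sum_add_distrib]
    refine Finset.sum_congr rfl fun j _ => ?_
    by_cases hj : 2 < u j
    · simp [hj, big]
    · simp [hj, big]
  rw [chi_cast, e2] at hchi
  rw [chi_cast]
  push_cast at hchi h3 ⊢
  constructor
  · omega
  · have h4 : ((1 + ∑ j, (if j ∈ (Finset.univ.filter fun j => 2 < u j) then 0
        else (u j + 1).choose 2) : ℕ) : ℤ) ≤
        (Module.finrank K ↥(VS (fun j => aff (P j)) (big u) e) : ℤ) := by exact_mod_cast h3
    push_cast at h4
    linarith

/-- At least ten multiplicities are larger than two. -/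
theorem ten {r e : ℕ} {u : Fin (r + 4) → ℕ} (hred : Reduced e u) {K : Type} [Field K] [CharZero K]
    {P : Fin (r + 4) → Fin 2 → K}
    (hP : AlgebraicIndependent ℚ (fun ij : Fin (r + 4) × Fin 2 => P ij.1 ij.2))
    (h : Pool.Agent.TH167.SH.Special P e u) : 10 ≤ (Finset.univ.filter fun j => 2 < u j).card := by
  by_contra hcon
  have h1 := nonsp_gen hred (by omega) hP
  rw [special_iff, chi_cast, h1] at h
  omega

end Pool.Agent.U479.MC
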