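import Pool.Agent.U479.MC.Min
import Pool.Agent.U479.DD.Fin

set_option autoImplicit false

/-!
# Reduction to rigid classes
-/

namespace Pool.Agent.U479.MC

open MvPolynomial Pool.Agent.W609 Pool.Agent.W609.CR Pool.Agent.TH167.SH Pool.Agent.TH167.TT
  Pool.Agent.U479.DD

/-- Special at generic points. -/
def GenSpecial {s : ℕ} (d : ℕ) (w : Fin s → ℕ) : Prop :=
  ∀ (K : Type) [Field K] [CharZero K] (P : Fin s → Fin 2 → K),
    AlgebraicIndependent ℚ (fun ij : Fin s × Fin 2 => P ij.1 ij.2) →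
      Pool.Agent.TH167.SH.Special P d w

theorem genSpecial_of {s : ℕ} {d : ℕ} {w : Fin s → ℕ} {K : Type} [Field K] [CharZero K]
    {P : Fin s → Fin 2 → K}
    (hP : AlgebraicIndependent ℚ (fun ij : Fin s × Fin 2 => P ij.1 ij.2))
    (h : Pool.Agent.TH167.SH.Special P d w) : GenSpecial d w := by
  intro K' _ _ P' hP'
  unfold Pool.Agent.TH167.SH.Special at h ⊢
  rw [gen_eq hP' hP w d]
  exact h

theorem minimal_s {s : ℕ} (hs : 4 ≤ s) (d : ℕ) (w : Fin s → ℕ) (hred : Reduced d w)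
    (hrig : ∃ (K : Type) (_ : Field K) (_ : CharZero K) (P : Fin s → Fin 2 → K),
      AlgebraicIndependent ℚ (fun ij : Fin s × Fin 2 => P ij.1 ij.2) ∧
        Module.finrank K ↥(VS (fun j => aff (P j)) w d) = 1) (hchi : chi d w ≤ 0) :
    ∃ (e : ℕ) (u : Fin s → ℕ), e ≤ d ∧ (∀ j, u j ≤ w j) ∧ Reduced e u ∧ chi e u ≤ 0 ∧
      RigIrr e u := by
  obtain ⟨r, rfl⟩ : ∃ r, s = r + 4 := ⟨s - 4, by omega⟩
  exact minimal d w hred hrig hchi

/-- Simple points added to a reduced class with at least ten multiplicities larger than two. -/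
theorem red_pad {r d : ℕ} {w : Fin (r + 4) → ℕ} (hred : Reduced d w)
    (h10 : 10 ≤ (Finset.univ.filter fun j => 2 < w j).card) (W : ℕ → ℕ)
    (hW : ∀ j : Fin (r + 4), W j = w j) (hW1 : ∀ j, r + 4 ≤ j → W j ≤ 1) :
    ∀ (n : ℕ) (T : Finset ℕ), T.card ≤ 3 → (T.filter fun j => r + 4 ≤ j).card = n →
      ∑ j ∈ T, W j ≤ d := by
  classical
  intro n
  induction n with
  | zero =>
    intro T hT hn
    have h1 : ∀ j ∈ T, j < r + 4 := by
      intro j hj
      by_contra hcon
      have h2 : j ∈ T.filter fun j => r + 4 ≤ j := Finset.mem_filter.2 ⟨hj, by omega⟩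
      rw [Finset.card_eq_zero.1 hn] at h2
      exact Finset.notMem_empty j h2
    obtain ⟨S, hS⟩ : ∃ S : Finset (Fin (r + 4)), S = Finset.univ.filter fun j : Fin (r + 4) =>
      (j : ℕ) ∈ T := ⟨_, rfl⟩
    have hTS : T = S.map Fin.valEmbedding := by
      ext j
      rw [Finset.mem_map, hS]
      constructor
      · intro hj
        exact ⟨⟨j, h1 j hj⟩, Finset.mem_filter.2 ⟨Finset.mem_univ _, hj⟩, rfl⟩
      · rintro ⟨a, ha, rfl⟩
        exact (Finset.mem_filter.1 ha).2
    rw [hTS, Finset.sum_map]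
    rw [hTS, Finset.card_map] at hT
    refine le_trans (le_of_eq (Finset.sum_congr rfl fun j _ => ?_)) (red_three hred hT)
    exact hW j
  | succ n ih =>
    intro T hT hn
    obtain ⟨x, hx⟩ := Finset.card_pos.1 (show 0 < (T.filter fun j => r + 4 ≤ j).card by omega)
    have hxT := (Finset.mem_filter.1 hx).1
    have hx4 := (Finset.mem_filter.1 hx).2
    obtain ⟨a, ha1, ha2⟩ : ∃ a : Fin (r + 4), (a : ℕ) ∉ T ∧ 2 < w a := by
      by_contra hcon
      push Not at hcon
      have h2 : (Finset.univ.filter fun j : Fin (r + 4) => 2 < w j).card ≤ T.card := by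
        refine Finset.card_le_card_of_injOn (fun j : Fin (r + 4) => (j : ℕ)) (fun j hj => ?_)
          (fun i _ j _ h => Fin.ext h)
        have hj' := (Finset.mem_filter.1 (Finset.mem_coe.1 hj)).2
        by_contra hjT
        exact absurd (hcon j (fun h => hjT (Finset.mem_coe.2 h))) (by omega)
      omega
    have hna : (a : ℕ) ∉ T.erase x := fun h => ha1 (Finset.mem_of_mem_erase h)
    have hc := Finset.card_erase_of_mem hxT
    have hTpos : 0 < T.card := Finset.card_pos.2 ⟨x, hxT⟩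
    have h3 := ih (insert (a : ℕ) (T.erase x)) (by rw [Finset.card_insert_of_notMem hna]; omega) (by
      rw [Finset.filter_insert, if_neg (by omega), Finset.filter_erase,
        Finset.card_erase_of_mem hx]
      omega)
    rw [Finset.sum_insert hna, hW] at h3
    have h4 := Finset.add_sum_erase T W hxT
    have h5 := hW1 x hx4
    omega

/-- The rank after simple points are added. -/
theorem pad_rank {n t d : ℕ} {w : Fin n → ℕ} {wp : Fin (n + t) → ℕ}
    (hl : ∀ i : Fin n, wp (Fin.castAdd t i) = w i) (hr : ∀ i : Fin t, wp (Fin.natAdd n i) = 1)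
    {K : Type} [Field K] [CharZero K] {P : ℕ → Fin 2 → K} (hP : Gen P) :
    Module.finrank K ↥(VS (fun j : Fin (n + t) => aff (P j)) wp d) =
      Module.finrank K ↥(VS (fun j : Fin n => aff (P j)) w d) - t := by
  classical
  obtain ⟨A, hA⟩ : ∃ A, A = Finset.Ico n (n + t) := ⟨_, rfl⟩
  have hAc : A.card = t := by rw [hA, Nat.card_Ico]; omega
  have hAm : ∀ j, j ∈ A ↔ n ≤ j ∧ j < n + t := fun j => by rw [hA, Finset.mem_Ico]
  have h1 := simple' hP (ext_fs w) d A (fun j hj => ext_ge w ((hAm j).1 hj).1)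
  rw [hAc] at h1
  have hWg : ∀ j, n + t ≤ j → (ext w + bp 1 A) j = 0 := fun j hj => by
    rw [Pi.add_apply, ext_ge w (by omega), bp_not (fun h => by have := (hAm j).1 h; omega)]
  unfold H at h1
  rw [V_eq hWg, V_eq (s := n) (fun j hj => ext_ge w hj)] at h1
  have e1 : (fun j : Fin (n + t) => (ext w + bp 1 A) (j : ℕ)) = wp := by
    funext j
    refine Fin.addCases (fun i => ?_) (fun i => ?_) j
    · rw [hl]
      show (ext w + bp 1 A) (i : ℕ) = w i
      have hi := i.2
      rw [Pi.add_apply, ext_val, bp_not (fun h => by have := (hAm _).1 h; omega), add_zero]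
    · rw [hr]
      show (ext w + bp 1 A) (n + (i : ℕ)) = 1
      have hi := i.2
      rw [Pi.add_apply, ext_ge _ (by omega), bp_mem ((hAm _).2 ⟨by omega, by omega⟩)]
  have e2 : (fun j : Fin n => ext w (j : ℕ)) = w := funext fun j => ext_val w j
  rw [e1, e2] at h1
  exact h1

theorem pad_chi {n t d : ℕ} {w : Fin n → ℕ} {wp : Fin (n + t) → ℕ}
    (hl : ∀ i : Fin n, wp (Fin.castAdd t i) = w i) (hr : ∀ i : Fin t, wp (Fin.natAdd n i) = 1) :
    chi d wp = chi d w - t := by
  have e1 : ∑ j, (wp j + 1).choose 2 = ∑ j, (w j + 1).choose 2 + t := by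
    rw [Fin.sum_univ_add]
    congr 1
    · exact Finset.sum_congr rfl fun j _ => by rw [hl]
    · rw [Finset.sum_congr rfl fun j _ => by rw [hr]]
      simp
  rw [chi_cast, chi_cast, e1]
  push_cast
  ring

theorem pad_red {r t d : ℕ} {w : Fin (r + 4) → ℕ} {wp : Fin (r + 4 + t) → ℕ}
    (hl : ∀ i : Fin (r + 4), wp (Fin.castAdd t i) = w i)
    (hr : ∀ i : Fin t, wp (Fin.natAdd (r + 4) i) = 1)
    (hred : Reduced d w) (h10 : 10 ≤ (Finset.univ.filter fun j => 2 < w j).card) :
    Reduced d wp := by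
  classical
  have hv : ∀ j : Fin (r + 4), ext wp j = w j := fun j => by
    rw [← hl j]
    exact ext_val wp (Fin.castAdd t j)
  have hv1 : ∀ j, r + 4 ≤ j → ext wp j ≤ 1 := fun j hj => by
    by_cases hjt : j < r + 4 + t
    · have h1 := ext_val wp (Fin.natAdd (r + 4) ⟨j - (r + 4), by omega⟩)
      rw [hr] at h1
      have h2 : ((Fin.natAdd (r + 4) (⟨j - (r + 4), by omega⟩ : Fin t) : Fin (r + 4 + t)) : ℕ) = j := by
        show r + 4 + (j - (r + 4)) = j
        omega
      rw [h2] at h1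
      exact h1.le
    · rw [ext_ge wp (by omega)]
      exact Nat.zero_le _
  intro i j k hij hik hjk
  have h1 := red_pad hred h10 (ext wp) hv hv1 _ {(i : ℕ), (j : ℕ), (k : ℕ)}
    Finset.card_le_three rfl
  have e1 : (i : ℕ) ≠ j := fun h => hij (Fin.ext h)
  have e2 : (i : ℕ) ≠ k := fun h => hik (Fin.ext h)
  have e3 : (j : ℕ) ≠ k := fun h => hjk (Fin.ext h)
  rw [Finset.sum_insert (by simp [e1, e2]), Finset.sum_insert (by simp [e3]),
    Finset.sum_singleton, ext_val, ext_val, ext_val] at h1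
  omega

/-- **A special reduced class dominates a rigid irreducible one.** -/
theorem pad {n : ℕ} (hn : 4 ≤ n) {d : ℕ} {w : Fin n → ℕ} (hred : Reduced d w)
    (hs : GenSpecial d w) :
    ∃ (e t : ℕ) (U : Fin (n + t) → ℕ), e ≤ d ∧ (∀ i : Fin n, U (Fin.castAdd t i) ≤ w i) ∧
      (∀ i : Fin t, U (Fin.natAdd n i) ≤ 1) ∧ Reduced e U ∧ chi e U ≤ 0 ∧ RigIrr e U := by
  classical
  obtain ⟨r, rfl⟩ : ∃ r, n = r + 4 := ⟨n - 4, by omega⟩
  obtain ⟨K, i1, i2, P, hP⟩ := exists_gen
  have hPn := gen_fin hP (r + 4)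
  have hsp := hs K (fun j : Fin (r + 4) => P j) hPn
  have h10 := ten (P := fun j : Fin (r + 4) => P j) hred hPn hsp
  rw [special_iff] at hsp
  obtain ⟨h, hh⟩ : ∃ h, h = Module.finrank K ↥(VS (fun j : Fin (r + 4) => aff (P j)) w d) :=
    ⟨_, rfl⟩
  rw [← hh] at hsp
  obtain ⟨t, ht⟩ : ∃ t, t = h - 1 := ⟨_, rfl⟩
  obtain ⟨wp, hwp⟩ : ∃ wp : Fin (r + 4 + t) → ℕ, wp = Fin.append w (fun _ : Fin t => 1) := ⟨_, rfl⟩
  have hl : ∀ i : Fin (r + 4), wp (Fin.castAdd t i) = w i := fun i => by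
    rw [hwp, Fin.append_left]
  have hr : ∀ i : Fin t, wp (Fin.natAdd (r + 4) i) = 1 := fun i => by
    rw [hwp, Fin.append_right]
  have h1 := pad_rank (d := d) hl hr hP
  rw [← hh] at h1
  have h2 := pad_chi (d := d) hl hr
  have h3 := pad_red hl hr hred h10
  obtain ⟨e, U, a1, a2, a3, a4, a5⟩ := minimal_s (s := r + 4 + t) (by omega) d wp h3
    ⟨K, i1, i2, fun j : Fin (r + 4 + t) => P j, gen_fin hP (r + 4 + t), by
      rw [h1]
      omega⟩ (by omega)
  exact ⟨e, t, U, a1, fun i => (a2 _).trans (hl i).le, fun i => (a2 _).trans (hr i).le, a3, a4,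
    a5⟩

end Pool.Agent.U479.MC
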